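import Mathlib

open Finset

namespace Pool.Agent.Helper704.RadBall

/-- sign of a boolean -/
noncomputable def sg (b : Bool) : ℝ := if b then 1 else -1

lemma sg_not (b : Bool) : sg (!b) = - sg b := by cases b <;> simp [sg]
lemma sg_sq (b : Bool) : sg b * sg b = 1 := by cases b <;> simp [sg]
lemma abs_sg (b : Bool) : |sg b| = 1 := by cases b <;> simp [sg]

section signs
variable {ι : Type*} [Fintype ι] [DecidableEq ι]

/-- flip one coordinate -/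
def flip (i : ι) (ω : ι → Bool) : ι → Bool := Function.update ω i (!ω i)

lemma flip_flip (i : ι) (ω : ι → Bool) : flip i (flip i ω) = ω := by
  ext j
  by_cases h : j = i
  · subst h; simp [flip]
  · simp [flip, h]

def flipEquiv (i : ι) : (ι → Bool) ≃ (ι → Bool) :=
  ⟨flip i, flip i, flip_flip i, flip_flip i⟩

lemma sum_anti (i : ι) (g : (ι → Bool) → ℝ) (h : ∀ ω, g (flip i ω) = - g ω) :
    ∑ ω, g ω = 0 := by
  have h1 : ∑ ω, g (flipEquiv i ω) = ∑ ω, g ω := Equiv.sum_comp (flipEquiv i) g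
  have h2 : ∑ ω, g (flipEquiv i ω) = - ∑ ω, g ω := by
    rw [← Finset.sum_neg_distrib]
    exact Finset.sum_congr rfl (fun ω _ => h ω)
  linarith

lemma sum_sg (i : ι) : ∑ ω : ι → Bool, sg (ω i) = 0 := by
  apply sum_anti i
  intro ω
  simp [flip, sg_not]

lemma sum_sg_sg (i j : ι) : ∑ ω : ι → Bool, sg (ω i) * sg (ω j) =
    if i = j then (Fintype.card (ι → Bool) : ℝ) else 0 := by
  split_ifs with h
  · subst h
    simp [sg_sq]
  · apply sum_anti i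
    intro ω
    have : j ≠ i := fun h' => h h'.symm
    simp [flip, sg_not, this]

/-- the signed sum -/
noncomputable def ss (ω : ι → Bool) (v : ι → ℂ) : ℂ := ∑ i, (sg (ω i) : ℂ) * v i

lemma sum_re_ss (w : ℂ) (v : ι → ℂ) : ∑ ω : ι → Bool, (w * ss ω v).re = 0 := by
  have : ∀ ω : ι → Bool, (w * ss ω v).re = ∑ i, sg (ω i) * (w * v i).re := by
    intro ω
    unfold ss
    rw [Finset.mul_sum, Complex.re_sum]
    refine Finset.sum_congr rfl (fun i _ => ?_)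
    rw [← Complex.re_ofReal_mul]
    congr 1; ring
  simp_rw [this]
  rw [Finset.sum_comm]
  simp_rw [← Finset.sum_mul, sum_sg]
  simp

lemma sum_normSq_ss (v : ι → ℂ) : ∑ ω : ι → Bool, ‖ss ω v‖ ^ 2 =
    (Fintype.card (ι → Bool) : ℝ) * ∑ i, ‖v i‖ ^ 2 := by
  have : ∀ ω : ι → Bool, ‖ss ω v‖ ^ 2 = ∑ i, ∑ j, sg (ω i) * sg (ω j) * (v i * (starRingEnd ℂ) (v j)).re := by
    intro ω
    have h1 : ((‖ss ω v‖ ^ 2 : ℝ) : ℂ) = ss ω v * (starRingEnd ℂ) (ss ω v) := by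
      rw [Complex.mul_conj, Complex.normSq_eq_norm_sq]
    have h2 : ‖ss ω v‖ ^ 2 = (ss ω v * (starRingEnd ℂ) (ss ω v)).re := by
      rw [← h1, Complex.ofReal_re]
    rw [h2]
    unfold ss
    rw [map_sum, Finset.sum_mul_sum, Complex.re_sum]
    refine Finset.sum_congr rfl (fun i _ => ?_)
    rw [Complex.re_sum]
    refine Finset.sum_congr rfl (fun j _ => ?_)
    rw [← Complex.re_ofReal_mul]
    congr 1
    push_cast
    rw [map_mul, Complex.conj_ofReal]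
    ring
  simp_rw [this]
  rw [Finset.sum_comm]
  simp_rw [Finset.sum_comm (s := (Finset.univ : Finset (ι → Bool))), ← Finset.sum_mul, sum_sg_sg]
  simp only [ite_mul, zero_mul, Finset.sum_ite_eq, Finset.mem_univ, if_true]
  rw [Finset.mul_sum]
  refine Finset.sum_congr rfl (fun i _ => ?_)
  congr 1
  rw [Complex.mul_conj, Complex.normSq_eq_norm_sq, Complex.ofReal_re]

lemma norm_ss_le (ω : ι → Bool) (v : ι → ℂ) : ‖ss ω v‖ ≤ ∑ i, ‖v i‖ := by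
  unfold ss
  refine (norm_sum_le _ _).trans (Finset.sum_le_sum (fun i _ => ?_))
  rw [norm_mul, Complex.norm_real, Real.norm_eq_abs, abs_sg, one_mul]

end signs

/-- pointwise potential inequalities -/
lemma recip_ineq {q x : ℝ} (hq : 0 < q) (hx : |x| ≤ q / 2) :
    1 / (q - x) ≤ 1 / q + x / q ^ 2 + 2 * x ^ 2 / q ^ 3 := by
  have h1 := abs_le.mp hx
  have hpos : 0 < q - x := by linarith [h1.2]
  rw [div_add_div _ _ hq.ne' (by positivity), div_add_div _ _ (by positivity) (by positivity),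
    div_le_div_iff₀ hpos (by positivity)]
  have key : 0 ≤ q ^ 3 * (x ^ 2 * (q - 2 * x)) := by
    have : 0 ≤ q - 2 * x := by linarith [h1.2]
    positivity
  nlinarith [key]

lemma exp_neg_le {x : ℝ} (h0 : 0 ≤ x) (h1 : x ≤ 1) : Real.exp (-x) ≤ 1 - x / 2 := by
  have h : Real.exp (-x) ≤ 1 / (1 + x) := by
    rw [Real.exp_neg, ← one_div]
    apply one_div_le_one_div_of_le (by linarith)
    linarith [Real.add_one_le_exp x]
  refine h.trans ?_
  rw [div_le_iff₀ (by linarith)]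
  nlinarith

section pot
variable {ι : Type*} [Fintype ι] [DecidableEq ι]

lemma pot1 (w : ℂ) (v : ι → ℂ) (q t : ℝ) (hq : 0 < q) (hqd : q = 1 - ‖w‖ ^ 2)
    (ht0 : 0 ≤ t) (ht : t ≤ 1 / 6) (hv : ∑ i, ‖v i‖ ≤ t * q) :
    ∑ ω : ι → Bool, 1 / (1 - ‖w + ss ω v‖ ^ 2) ≤
      (Fintype.card (ι → Bool) : ℝ) * ((1 + 19 * t ^ 2) * (1 / q)) := by
  have hw : ‖w‖ ≤ 1 := by
    by_contra h
    push Not at h
    nlinarith [norm_nonneg w]
  have hq1 : q ≤ 1 := by nlinarith [norm_nonneg w, sq_nonneg ‖w‖]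
  have hp : ∀ ω : ι → Bool, ‖ss ω v‖ ≤ t * q := fun ω => (norm_ss_le ω v).trans hv
  have hexp : ∀ ω : ι → Bool, 1 - ‖w + ss ω v‖ ^ 2 =
      q - (2 * ((starRingEnd ℂ) w * ss ω v).re + ‖ss ω v‖ ^ 2) := by
    intro ω
    rw [hqd]
    have := Complex.normSq_add w (ss ω v)
    rw [Complex.normSq_eq_norm_sq, Complex.normSq_eq_norm_sq, Complex.normSq_eq_norm_sq] at this
    rw [this]
    have h2 : (w * (starRingEnd ℂ) (ss ω v)).re = ((starRingEnd ℂ) w * ss ω v).re := by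
      simp [Complex.mul_re]
    rw [h2]; ring
  have hx : ∀ ω : ι → Bool, |2 * ((starRingEnd ℂ) w * ss ω v).re + ‖ss ω v‖ ^ 2| ≤ 3 * ‖ss ω v‖ := by
    intro ω
    have h1 : |((starRingEnd ℂ) w * ss ω v).re| ≤ ‖ss ω v‖ := by
      refine (Complex.abs_re_le_norm _).trans ?_
      rw [norm_mul, RCLike.norm_conj]
      nlinarith [norm_nonneg w, norm_nonneg (ss ω v)]
    have h2 : ‖ss ω v‖ ^ 2 ≤ ‖ss ω v‖ := by
      have : ‖ss ω v‖ ≤ 1 := (hp ω).trans (by nlinarith)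
      nlinarith [norm_nonneg (ss ω v)]
    have h3 := abs_le.mp h1
    rw [abs_le]
    constructor <;> nlinarith [norm_nonneg (ss ω v), sq_nonneg ‖ss ω v‖]
  have key : ∀ ω : ι → Bool, 1 / (1 - ‖w + ss ω v‖ ^ 2) ≤
      1 / q + (2 * ((starRingEnd ℂ) w * ss ω v).re + ‖ss ω v‖ ^ 2) / q ^ 2
        + 18 * ‖ss ω v‖ ^ 2 / q ^ 3 := by
    intro ω
    rw [hexp ω]
    have hb : |2 * ((starRingEnd ℂ) w * ss ω v).re + ‖ss ω v‖ ^ 2| ≤ q / 2 := by
      refine (hx ω).trans ?_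
      have := hp ω
      nlinarith
    refine (recip_ineq hq hb).trans ?_
    have h9 : (2 * ((starRingEnd ℂ) w * ss ω v).re + ‖ss ω v‖ ^ 2) ^ 2 ≤ (3 * ‖ss ω v‖) ^ 2 := by
      rw [← sq_abs (2 * ((starRingEnd ℂ) w * ss ω v).re + ‖ss ω v‖ ^ 2)]
      exact pow_le_pow_left₀ (abs_nonneg _) (hx ω) 2
    have h10 : 2 * (2 * ((starRingEnd ℂ) w * ss ω v).re + ‖ss ω v‖ ^ 2) ^ 2 / q ^ 3 ≤
        18 * ‖ss ω v‖ ^ 2 / q ^ 3 := by
      apply div_le_div_of_nonneg_right _ (by positivity)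
      nlinarith [h9]
    linarith
  refine (Finset.sum_le_sum (fun ω _ => key ω)).trans ?_
  have hsum : ∑ ω : ι → Bool, (1 / q + (2 * ((starRingEnd ℂ) w * ss ω v).re + ‖ss ω v‖ ^ 2) / q ^ 2
        + 18 * ‖ss ω v‖ ^ 2 / q ^ 3) =
      (Fintype.card (ι → Bool) : ℝ) * (1 / q) +
      (Fintype.card (ι → Bool) : ℝ) * (∑ i, ‖v i‖ ^ 2) / q ^ 2 +
      18 * ((Fintype.card (ι → Bool) : ℝ) * ∑ i, ‖v i‖ ^ 2) / q ^ 3 := by
    have s1 : ∑ _ω : ι → Bool, 1 / q = (Fintype.card (ι → Bool) : ℝ) * (1 / q) := by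
      rw [Finset.sum_const, Finset.card_univ, nsmul_eq_mul]
    have s2 : ∑ ω : ι → Bool, (2 * ((starRingEnd ℂ) w * ss ω v).re + ‖ss ω v‖ ^ 2) / q ^ 2 =
        (Fintype.card (ι → Bool) : ℝ) * (∑ i, ‖v i‖ ^ 2) / q ^ 2 := by
      rw [← Finset.sum_div, Finset.sum_add_distrib, ← Finset.mul_sum, sum_re_ss, sum_normSq_ss,
        mul_zero, zero_add]
    have s3 : ∑ ω : ι → Bool, 18 * ‖ss ω v‖ ^ 2 / q ^ 3 =
        18 * ((Fintype.card (ι → Bool) : ℝ) * ∑ i, ‖v i‖ ^ 2) / q ^ 3 := by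
      rw [← Finset.sum_div, ← Finset.mul_sum, sum_normSq_ss]
    rw [Finset.sum_add_distrib, Finset.sum_add_distrib, s1, s2, s3]
  rw [hsum]
  have hs : ∑ i, ‖v i‖ ^ 2 ≤ (t * q) ^ 2 := by
    refine le_trans ?_ (pow_le_pow_left₀ (Finset.sum_nonneg (fun i _ => norm_nonneg _)) hv 2)
    exact Finset.sum_sq_le_sq_sum_of_nonneg (fun i _ => norm_nonneg _)
  set C : ℝ := (Fintype.card (ι → Bool) : ℝ) with hC
  have hC0 : 0 ≤ C := by positivity
  have e1 : C * (∑ i, ‖v i‖ ^ 2) / q ^ 2 ≤ C * (t ^ 2 * (1 / q)) := by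
    rw [div_le_iff₀ (by positivity)]
    have : C * (t ^ 2 * (1 / q)) * q ^ 2 = C * (t ^ 2 * q) := by field_simp
    rw [this]
    apply mul_le_mul_of_nonneg_left _ hC0
    nlinarith [sq_nonneg t]
  have e2 : 18 * (C * ∑ i, ‖v i‖ ^ 2) / q ^ 3 ≤ C * (18 * t ^ 2 * (1 / q)) := by
    rw [div_le_iff₀ (by positivity)]
    have : C * (18 * t ^ 2 * (1 / q)) * q ^ 3 = 18 * (C * (t * q) ^ 2) := by field_simp
    rw [this]
    gcongr
  calc C * (1 / q) + C * (∑ i, ‖v i‖ ^ 2) / q ^ 2 + 18 * (C * ∑ i, ‖v i‖ ^ 2) / q ^ 3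
      ≤ C * (1 / q) + C * (t ^ 2 * (1 / q)) + C * (18 * t ^ 2 * (1 / q)) := by linarith
    _ = C * ((1 + 19 * t ^ 2) * (1 / q)) := by ring

lemma pot2 (v : ι → ℂ) (s u : ℝ) (hs : 0 < s) (hs1 : s ≤ 1) (hv : ∑ i, ‖v i‖ ≤ s)
    (hu : u ≤ ∑ i, ‖v i‖ ^ 2) :
    ∑ ω : ι → Bool, Real.exp (-‖ss ω v‖) ≤
      (Fintype.card (ι → Bool) : ℝ) * (1 - u / (2 * s)) := by
  have hp : ∀ ω : ι → Bool, ‖ss ω v‖ ≤ s := fun ω => (norm_ss_le ω v).trans hv
  have key : ∀ ω : ι → Bool, Real.exp (-‖ss ω v‖) ≤ 1 - ‖ss ω v‖ ^ 2 / (2 * s) := by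
    intro ω
    refine (exp_neg_le (norm_nonneg _) ((hp ω).trans hs1)).trans ?_
    have : ‖ss ω v‖ ^ 2 / (2 * s) ≤ ‖ss ω v‖ / 2 := by
      rw [div_le_div_iff₀ (by positivity) (by norm_num)]
      nlinarith [hp ω, norm_nonneg (ss ω v)]
    linarith
  refine (Finset.sum_le_sum (fun ω _ => key ω)).trans ?_
  rw [Finset.sum_sub_distrib, ← Finset.sum_div, sum_normSq_ss, Finset.sum_const, Finset.card_univ,
    nsmul_eq_mul]
  have hC0 : (0:ℝ) ≤ (Fintype.card (ι → Bool) : ℝ) := by positivity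
  have : (Fintype.card (ι → Bool) : ℝ) * u / (2 * s) ≤
      (Fintype.card (ι → Bool) : ℝ) * (∑ i, ‖v i‖ ^ 2) / (2 * s) := by gcongr
  calc _ = (Fintype.card (ι → Bool) : ℝ) - (Fintype.card (ι → Bool) : ℝ) * (∑ i, ‖v i‖ ^ 2) / (2 * s) := by ring
    _ ≤ (Fintype.card (ι → Bool) : ℝ) - (Fintype.card (ι → Bool) : ℝ) * u / (2 * s) := by linarith
    _ = _ := by ring

end pot
end Pool.Agent.Helper704.RadBall
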