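import Mathlib

open Finset

namespace Pool.Agent.Helper704.RadBall

lemma summable_expabs : Summable (fun j : ℤ => Real.exp (-(|(j:ℝ)|) / 8)) := by
  have hg : Summable (fun n : ℕ => (Real.exp (-1/8)) ^ n) := by
    apply summable_geometric_of_lt_one (Real.exp_pos _).le
    rw [Real.exp_lt_one_iff]; norm_num
  rw [summable_int_iff_summable_nat_and_neg]
  constructor
  · refine hg.congr (fun n => ?_)
    rw [← Real.exp_nat_mul]
    congr 1
    have : |((n:ℤ):ℝ)| = n := by push_cast; exact abs_of_nonneg (Nat.cast_nonneg _)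
    rw [this]; ring
  · refine hg.congr (fun n => ?_)
    rw [← Real.exp_nat_mul]
    congr 1
    have : |((-(n:ℤ) : ℤ):ℝ)| = n := by
      push_cast; rw [abs_neg]; exact abs_of_nonneg (Nat.cast_nonneg _)
    rw [this]; ring

lemma gauss1 : ∃ K : ℝ, 1 ≤ K ∧ ∀ (F : Finset ℤ) (t : ℝ),
    ∑ m ∈ F, Real.exp (-(t - m) ^ 2 / 4) ≤ K := by
  set T : ℝ := ∑' j : ℤ, Real.exp (-(|(j:ℝ)|) / 8) with hT
  refine ⟨max 1 (Real.exp (1/16) * T), le_max_left _ _, fun F t => ?_⟩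
  refine le_trans ?_ (le_max_right _ _)
  set k : ℤ := round t with hk
  have hk1 : |t - k| ≤ 1/2 := abs_sub_round t
  have h1 : ∀ m ∈ F, Real.exp (-(t - m) ^ 2 / 4) ≤ Real.exp (1/16) *
      Real.exp (-(|((m - k : ℤ):ℝ)|) / 8) := by
    intro m _
    rw [← Real.exp_add]
    apply Real.exp_le_exp.mpr
    have h2 : (t - k) ^ 2 ≤ 1/4 := by
      have := abs_le.mp hk1
      nlinarith [this.1, this.2]
    have h3 : (((m - k : ℤ):ℝ)) ^ 2 ≤ 2 * (t - m) ^ 2 + 1/2 := by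
      push_cast
      nlinarith [sq_nonneg ((t - m) + (t - k))]
    have h4 : |((m - k : ℤ):ℝ)| ≤ (((m - k : ℤ):ℝ)) ^ 2 := by
      have h5 : |(m - k : ℤ)| ≤ (m - k : ℤ) ^ 2 := by
        rcases eq_or_ne (m - k) 0 with h | h
        · simp [h]
        · have h6 : 1 ≤ |m - k| := Int.one_le_abs h
          calc |m - k| = |m - k| * 1 := by ring
            _ ≤ |m - k| * |m - k| := by gcongr
            _ = (m - k) ^ 2 := by rw [← sq, sq_abs]
      exact_mod_cast h5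
    linarith
  refine (Finset.sum_le_sum h1).trans ?_
  rw [← Finset.mul_sum]
  apply mul_le_mul_of_nonneg_left _ (Real.exp_pos _).le
  have h2 : ∑ m ∈ F, Real.exp (-(|((m - k : ℤ):ℝ)|) / 8) =
      ∑ j ∈ F.map ⟨fun m => m - k, fun a b h => by simpa using h⟩, Real.exp (-(|(j:ℝ)|) / 8) := by
    rw [Finset.sum_map]; rfl
  rw [h2]
  exact summable_expabs.sum_le_tsum _ (fun j _ => (Real.exp_pos _).le)

variable {n : ℕ}

/-- lattice point -/
noncomputable def pt (M : ℕ) (m : Fin n → ℤ × ℤ) : EuclideanSpace ℂ (Fin n) :=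
  WithLp.toLp 2 (fun i => (⟨((m i).1 : ℝ) / M, ((m i).2 : ℝ) / M⟩ : ℂ))

/-- index box -/
noncomputable def box (n M : ℕ) : Finset (Fin n → ℤ × ℤ) :=
  Fintype.piFinset (fun _ => (Finset.Icc (-(2*M):ℤ) (2*M)) ×ˢ (Finset.Icc (-(2*M):ℤ) (2*M)))

lemma normsq_sub_pt (M : ℕ) (hM : 0 < M) (z : EuclideanSpace ℂ (Fin n)) (m : Fin n → ℤ × ℤ) :
    (M:ℝ) ^ 2 * ‖z - pt M m‖ ^ 2 =
      ∑ i, ((M * (z i).re - (m i).1) ^ 2 + (M * (z i).im - (m i).2) ^ 2) := by
  rw [EuclideanSpace.norm_sq_eq, Finset.mul_sum]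
  refine Finset.sum_congr rfl (fun i _ => ?_)
  have hM' : (M:ℝ) ≠ 0 := by positivity
  rw [← Complex.normSq_eq_norm_sq, Complex.normSq_apply]
  simp only [pt, PiLp.sub_apply, Complex.sub_re, Complex.sub_im]
  field_simp

lemma gaussn (n : ℕ) : ∃ K : ℝ, 1 ≤ K ∧ ∀ (M : ℕ), 0 < M → ∀ z : EuclideanSpace ℂ (Fin n),
    ∑ m ∈ box n M, Real.exp (-((M:ℝ) ^ 2 * ‖z - pt M m‖ ^ 2) / 4) ≤ K := by
  obtain ⟨K, hK1, hK⟩ := gauss1
  refine ⟨(K ^ 2) ^ n, one_le_pow₀ (one_le_pow₀ hK1), fun M hM z => ?_⟩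
  have h1 : ∀ m : Fin n → ℤ × ℤ, Real.exp (-((M:ℝ) ^ 2 * ‖z - pt M m‖ ^ 2) / 4) =
      ∏ i, (Real.exp (-(M * (z i).re - (m i).1) ^ 2 / 4) *
        Real.exp (-(M * (z i).im - (m i).2) ^ 2 / 4)) := by
    intro m
    rw [normsq_sub_pt M hM z m, Finset.prod_congr rfl (fun i _ => (Real.exp_add _ _).symm),
      ← Real.exp_sum]
    congr 1
    rw [← Finset.sum_neg_distrib, Finset.sum_div]
    refine Finset.sum_congr rfl (fun i _ => ?_)
    ring
  simp_rw [h1]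
  unfold box
  rw [← Finset.prod_univ_sum (fun _ => (Finset.Icc (-(2*M):ℤ) (2*M)) ×ˢ (Finset.Icc (-(2*M):ℤ) (2*M)))
    (fun i (x : ℤ × ℤ) => Real.exp (-(M * (z i).re - x.1) ^ 2 / 4) *
        Real.exp (-(M * (z i).im - x.2) ^ 2 / 4))]
  have h2 : ∀ i : Fin n, ∑ x ∈ (Finset.Icc (-(2*M):ℤ) (2*M)) ×ˢ (Finset.Icc (-(2*M):ℤ) (2*M)),
      Real.exp (-(M * (z i).re - x.1) ^ 2 / 4) * Real.exp (-(M * (z i).im - x.2) ^ 2 / 4) ≤ K ^ 2 := by
    intro i
    rw [Finset.sum_product]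
    have e := Finset.sum_mul_sum (Finset.Icc (-(2*M):ℤ) (2*M)) (Finset.Icc (-(2*M):ℤ) (2*M))
      (fun x : ℤ => Real.exp (-(M * (z i).re - x) ^ 2 / 4))
      (fun y : ℤ => Real.exp (-(M * (z i).im - y) ^ 2 / 4))
    refine e.symm.le.trans ?_
    rw [sq]
    exact mul_le_mul (hK _ _) (hK _ _) (Finset.sum_nonneg (fun _ _ => (Real.exp_pos _).le))
      (by linarith)
  calc _ ≤ ∏ _i : Fin n, K ^ 2 := Finset.prod_le_prod
        (fun i _ => Finset.sum_nonneg (fun _ _ => by positivity)) (fun i _ => h2 i)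
    _ = (K ^ 2) ^ n := by simp

/-- nearest lattice point -/
lemma near (M : ℕ) (hM : 1 ≤ M) (z : EuclideanSpace ℂ (Fin n)) (hz : ‖z‖ ≤ 1) :
    ∃ m ∈ box n M, (M:ℝ) ^ 2 * ‖z - pt M m‖ ^ 2 ≤ n / 2 := by
  have hM0 : (0:ℝ) < M := by positivity
  refine ⟨fun i => (round (M * (z i).re), round (M * (z i).im)), ?_, ?_⟩
  · unfold box
    rw [Fintype.mem_piFinset]
    intro i
    have hzi : ‖z i‖ ≤ 1 := (PiLp.norm_apply_le z i).trans hz
    have key : ∀ x : ℝ, |x| ≤ 1 → (-(2 * M) : ℤ) ≤ round (M * x) ∧ round (M * x) ≤ (2 * M : ℤ) := by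
      intro x hx
      have h1 := abs_le.mp (abs_sub_round (M * x))
      have h2 := abs_le.mp hx
      have hM1 : (1:ℝ) ≤ M := by exact_mod_cast hM
      have h3 : |(M:ℝ) * x| ≤ M := by
        rw [abs_mul, abs_of_pos hM0]; nlinarith
      have h4 := abs_le.mp h3
      constructor
      · have : (-(2 * M) : ℝ) ≤ round (M * x) := by linarith [h1.1, h1.2]
        exact_mod_cast this
      · have : ((round (M * x) : ℤ):ℝ) ≤ 2 * M := by linarith [h1.1, h1.2]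
        exact_mod_cast this
    rw [Finset.mem_product, Finset.mem_Icc, Finset.mem_Icc]
    exact ⟨key _ ((Complex.abs_re_le_norm _).trans hzi), key _ ((Complex.abs_im_le_norm _).trans hzi)⟩
  · rw [normsq_sub_pt M (by omega)]
    have h : ∀ i : Fin n, ((M * (z i).re - (round (M * (z i).re) : ℤ)) ^ 2 +
        (M * (z i).im - (round (M * (z i).im) : ℤ)) ^ 2 : ℝ) ≤ 1/2 := by
      intro i
      have h1 := abs_le.mp (abs_sub_round (M * (z i).re))
      have h2 := abs_le.mp (abs_sub_round (M * (z i).im))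
      nlinarith [h1.1, h1.2, h2.1, h2.2]
    refine (Finset.sum_le_sum (fun i _ => h i)).trans ?_
    simp
    ring_nf
    rfl

end Pool.Agent.Helper704.RadBall
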