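import Mathlib
import Pool.Agent.Helper704.RB.A
import Pool.Agent.Helper704.RB.B

open Finset MeasureTheory Filter Topology

namespace Pool.Agent.Helper704.RadBall

variable {n : ℕ}

/-- peaking exponential at a -/
noncomputable def ee (M : ℕ) (a z : EuclideanSpace ℂ (Fin n)) : ℂ :=
  Complex.exp ((M:ℂ) ^ 2 * (inner ℂ a z - ((‖a‖ ^ 2 + 1 : ℝ) : ℂ) / 2))

lemma norm_ee (M : ℕ) (a z : EuclideanSpace ℂ (Fin n)) :
    ‖ee M a z‖ = Real.exp (-((M:ℝ) ^ 2 * ‖z - a‖ ^ 2) / 2 - (M:ℝ) ^ 2 * (1 - ‖z‖ ^ 2) / 2) := by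
  unfold ee
  rw [Complex.norm_exp]
  congr 1
  have h1 : ((M:ℂ) ^ 2 * (inner ℂ a z - ((‖a‖ ^ 2 + 1 : ℝ) : ℂ) / 2)) =
      (((M:ℝ)^2 : ℝ) : ℂ) * (inner ℂ a z - (((‖a‖ ^ 2 + 1) / 2 : ℝ) : ℂ)) := by
    push_cast; ring
  rw [h1, Complex.re_ofReal_mul, Complex.sub_re, Complex.ofReal_re]
  have h2 : ‖z - a‖ ^ 2 = ‖z‖ ^ 2 - 2 * (inner ℂ a z).re + ‖a‖ ^ 2 := by
    have := @norm_sub_sq ℂ _ _ _ _ z a
    rw [this]
    have h3 : RCLike.re (inner ℂ z a) = (inner ℂ a z).re := by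
      rw [← inner_conj_symm, RCLike.conj_re]; rfl
    rw [h3]
  rw [h2]; ring

lemma differentiable_ee (M : ℕ) (a : EuclideanSpace ℂ (Fin n)) : Differentiable ℂ (ee M a) := by
  unfold ee
  apply Differentiable.cexp
  apply Differentiable.const_mul
  apply Differentiable.sub_const
  exact (innerSL ℂ a).differentiable

lemma coef (φ : EuclideanSpace ℂ (Fin n) → ℝ) (hφ : Continuous φ) (h0 : ∀ z, 0 ≤ φ z)
    (h1 : ∀ z, φ z ≤ 1) (hpos : ∀ z, ‖z‖ = 1 → 0 < φ z) (K : ℝ)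
    (hK : ∀ (M : ℕ), 0 < M → ∀ z : EuclideanSpace ℂ (Fin n),
    ∑ m ∈ box n M, Real.exp (-((M:ℝ) ^ 2 * ‖z - pt M m‖ ^ 2) / 4) ≤ K) :
    ∀ᶠ M : ℕ in atTop, ∀ z : EuclideanSpace ℂ (Fin n), ‖z‖ = 1 →
      ∑ m ∈ box n M, φ (pt M m) * Real.exp (-((M:ℝ) ^ 2 * ‖z - pt M m‖ ^ 2) / 2) ≤ 2 * K * φ z ∧
      Real.exp (-(n:ℝ) / 2) / 4 * φ z ^ 2 ≤
        ∑ m ∈ box n M, (φ (pt M m) * Real.exp (-((M:ℝ) ^ 2 * ‖z - pt M m‖ ^ 2) / 2)) ^ 2 := by
  -- positive lower bound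
  obtain ⟨μ, hμ, hμle⟩ : ∃ μ : ℝ, 0 < μ ∧ ∀ z : EuclideanSpace ℂ (Fin n), ‖z‖ = 1 → μ ≤ φ z := by
    rcases (Metric.sphere (0 : EuclideanSpace ℂ (Fin n)) 1).eq_empty_or_nonempty with he | hne
    · refine ⟨1, one_pos, fun z hz => ?_⟩
      have : z ∈ Metric.sphere (0 : EuclideanSpace ℂ (Fin n)) 1 := by simpa using hz
      rw [he] at this; exact absurd this (Set.notMem_empty _)
    · obtain ⟨z0, hz0, hmin⟩ := (isCompact_sphere (0 : EuclideanSpace ℂ (Fin n)) 1).exists_isMinOn hne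
        hφ.continuousOn
      refine ⟨φ z0, hpos z0 (by simpa using hz0), fun z hz => hmin (by simpa using hz)⟩
  -- uniform continuity
  obtain ⟨τ, hτ, hτ1, huc⟩ : ∃ τ : ℝ, 0 < τ ∧ τ ≤ 1 ∧ ∀ z a : EuclideanSpace ℂ (Fin n), ‖z‖ = 1 →
      ‖z - a‖ < τ → |φ z - φ a| < μ / 2 := by
    have := (isCompact_closedBall (0 : EuclideanSpace ℂ (Fin n)) 2).uniformContinuousOn_of_continuous
      hφ.continuousOn
    rw [Metric.uniformContinuousOn_iff] at this
    obtain ⟨τ, hτ, h⟩ := this (μ / 2) (by positivity)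
    refine ⟨min τ 1, by positivity, min_le_right _ _, fun z a hz hza => ?_⟩
    have h2 : ‖a‖ ≤ 2 := by
      have h3 : ‖a‖ ≤ ‖z‖ + ‖z - a‖ := by
        have := norm_sub_norm_le a z
        rw [norm_sub_rev] at this; linarith
      have := lt_of_lt_of_le hza (min_le_right _ _)
      linarith
    have := h z (by simp [hz]) a (by simpa using h2) (by
      rw [dist_eq_norm]; exact lt_of_lt_of_le hza (min_le_left _ _))
    rwa [Real.dist_eq] at this
  have e1 : ∀ᶠ M : ℕ in atTop, Real.exp (-((M:ℝ) ^ 2 * τ ^ 2) / 4) ≤ μ := by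
    have ht : Tendsto (fun M : ℕ => Real.exp (-((M:ℝ) ^ 2 * τ ^ 2) / 4)) atTop (𝓝 0) := by
      apply Real.tendsto_exp_atBot.comp
      have h3 : Tendsto (fun M : ℕ => (M:ℝ) ^ 2) atTop atTop :=
        (tendsto_pow_atTop (two_ne_zero)).comp tendsto_natCast_atTop_atTop
      have h4 : Tendsto (fun M : ℕ => (-(τ ^ 2 / 4)) * (M:ℝ) ^ 2) atTop atBot :=
        h3.const_mul_atTop_of_neg (by simp; positivity)
      refine h4.congr (fun M => by ring)
    exact ht.eventually_le_const hμ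
  have e2 : ∀ᶠ M : ℕ in atTop, (n:ℝ) / 2 < (M:ℝ) ^ 2 * τ ^ 2 := by
    have h3 : Tendsto (fun M : ℕ => (M:ℝ) ^ 2) atTop atTop :=
      (tendsto_pow_atTop (two_ne_zero)).comp tendsto_natCast_atTop_atTop
    have h4 : Tendsto (fun M : ℕ => (M:ℝ) ^ 2 * τ ^ 2) atTop atTop :=
      h3.atTop_mul_const (by positivity)
    exact h4.eventually_gt_atTop _
  filter_upwards [e1, e2, eventually_ge_atTop 1] with M hM1 hM2 hM3 z hz
  have hM0 : (0:ℝ) < M := by exact_mod_cast hM3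
  have hφz := hμle z hz
  constructor
  · have key : ∀ m ∈ box n M, φ (pt M m) * Real.exp (-((M:ℝ) ^ 2 * ‖z - pt M m‖ ^ 2) / 2) ≤
        2 * φ z * Real.exp (-((M:ℝ) ^ 2 * ‖z - pt M m‖ ^ 2) / 4) := by
      intro m _
      set x := (M:ℝ) ^ 2 * ‖z - pt M m‖ ^ 2 with hx
      have hx0 : 0 ≤ x := by positivity
      by_cases hnear : ‖z - pt M m‖ < τ
      · have h3 := abs_lt.mp (huc z (pt M m) hz hnear)
        have h4 : φ (pt M m) ≤ 2 * φ z := by linarith [h3.1]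
        have h5 : Real.exp (-x / 2) ≤ Real.exp (-x / 4) := Real.exp_le_exp.mpr (by linarith)
        exact mul_le_mul h4 h5 (Real.exp_pos _).le (by linarith [h0 z])
      · push Not at hnear
        have h3 : Real.exp (-x / 2) = Real.exp (-x / 4) * Real.exp (-x / 4) := by
          rw [← Real.exp_add]; congr 1; ring
        have h4 : Real.exp (-x / 4) ≤ μ := by
          refine le_trans (Real.exp_le_exp.mpr ?_) hM1
          have : (M:ℝ) ^ 2 * τ ^ 2 ≤ x := by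
            rw [hx]; gcongr
          linarith
        rw [h3]
        have h5 : 0 < Real.exp (-x / 4) := Real.exp_pos _
        calc φ (pt M m) * (Real.exp (-x / 4) * Real.exp (-x / 4))
            ≤ 1 * (μ * Real.exp (-x / 4)) := by
              apply mul_le_mul (h1 _) _ (by positivity) zero_le_one
              exact mul_le_mul_of_nonneg_right h4 h5.le
          _ ≤ 2 * φ z * Real.exp (-x / 4) := by
              rw [one_mul]
              apply mul_le_mul_of_nonneg_right _ h5.le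
              linarith
    refine (Finset.sum_le_sum key).trans ?_
    rw [← Finset.mul_sum]
    calc 2 * φ z * ∑ m ∈ box n M, Real.exp (-((M:ℝ) ^ 2 * ‖z - pt M m‖ ^ 2) / 4)
        ≤ 2 * φ z * K := mul_le_mul_of_nonneg_left (hK M (by omega) z) (by linarith [h0 z])
      _ = 2 * K * φ z := by ring
  · obtain ⟨m, hm, hmx⟩ := near M hM3 z hz.le
    have hterm : Real.exp (-(n:ℝ) / 2) / 4 * φ z ^ 2 ≤
        (φ (pt M m) * Real.exp (-((M:ℝ) ^ 2 * ‖z - pt M m‖ ^ 2) / 2)) ^ 2 := by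
      have hnear : ‖z - pt M m‖ < τ := by
        have h3 : (M:ℝ) ^ 2 * ‖z - pt M m‖ ^ 2 < (M:ℝ) ^ 2 * τ ^ 2 := lt_of_le_of_lt hmx hM2
        have h4 : ‖z - pt M m‖ ^ 2 < τ ^ 2 := lt_of_mul_lt_mul_left h3 (by positivity)
        exact lt_of_pow_lt_pow_left₀ 2 hτ.le h4
      have h3 := abs_lt.mp (huc z (pt M m) hz hnear)
      have h4 : φ z / 2 ≤ φ (pt M m) := by linarith [h3.2]
      rw [mul_pow, ← Real.exp_nat_mul]
      calc Real.exp (-(n:ℝ) / 2) / 4 * φ z ^ 2 = (φ z / 2) ^ 2 * Real.exp (-(n:ℝ) / 2) := by ring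
        _ ≤ φ (pt M m) ^ 2 * Real.exp (((2:ℕ):ℝ) * (-((M:ℝ) ^ 2 * ‖z - pt M m‖ ^ 2) / 2)) := by
          apply mul_le_mul _ _ (Real.exp_pos _).le (sq_nonneg _)
          · exact pow_le_pow_left₀ (by linarith [h0 z]) h4 2
          · apply Real.exp_le_exp.mpr
            push_cast
            linarith
    exact hterm.trans (Finset.single_le_sum (f := fun m => (φ (pt M m) *
      Real.exp (-((M:ℝ) ^ 2 * ‖z - pt M m‖ ^ 2) / 2)) ^ 2) (fun _ _ => sq_nonneg _) hm)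

/-- the perturbation -/
noncomputable def pert (δ : ℝ) (φ : EuclideanSpace ℂ (Fin n) → ℝ) (M : ℕ) (ω : box n M → Bool)
    (z : EuclideanSpace ℂ (Fin n)) : ℂ :=
  ss ω (fun m => ((δ * φ (pt M m.1) : ℝ) : ℂ) * ee M (pt M m.1) z)

lemma differentiable_pert (δ : ℝ) (φ : EuclideanSpace ℂ (Fin n) → ℝ) (M : ℕ) (ω : box n M → Bool) :
    Differentiable ℂ (pert δ φ M ω) := by
  unfold pert ss
  apply Differentiable.fun_sum
  intro m _
  apply Differentiable.const_mul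
  apply Differentiable.const_mul
  exact differentiable_ee _ _

/-- main step -/
lemma step (n : ℕ) : ∃ δ0 c1 : ℝ, 0 < δ0 ∧ δ0 ≤ 1 ∧ 0 < c1 ∧
    ∀ (μ : Measure (Metric.sphere (0 : EuclideanSpace ℂ (Fin n)) 1)) [IsFiniteMeasure μ]
      (f : EuclideanSpace ℂ (Fin n) → ℂ) (_ : Differentiable ℂ f)
      (_ : ∀ z, ‖z‖ = 1 → ‖f z‖ < 1)
      (G : Metric.sphere (0 : EuclideanSpace ℂ (Fin n)) 1 → ℝ) (_ : Continuous G)
      (_ : ∀ z, 0 ≤ G z) (δ ρ η : ℝ) (_ : 0 < δ) (_ : δ ≤ δ0) (_ : 0 ≤ ρ) (_ : ρ < 1) (_ : 0 < η),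
      ∃ P : EuclideanSpace ℂ (Fin n) → ℂ, Differentiable ℂ P ∧
        (∀ z, ‖z‖ = 1 → ‖f z + P z‖ < 1) ∧
        (∀ z, ‖z‖ ≤ ρ → ‖P z‖ ≤ η) ∧
        (∫ z, 1 / (1 - ‖f z.1 + P z.1‖ ^ 2) ∂μ) + (∫ z, G z * Real.exp (-‖P z.1‖) ∂μ) ≤
          (1 + (δ / δ0) ^ 2) * (∫ z, 1 / (1 - ‖f z.1‖ ^ 2) ∂μ) +
          (∫ z, G z * (1 - c1 * δ * (1 - ‖f z.1‖ ^ 2)) ∂μ) := by
  obtain ⟨K, hK1, hK⟩ := gaussn n
  set κ : ℝ := Real.exp (-(n:ℝ) / 2) / 4 with hκ
  have hκ0 : 0 < κ := by positivity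
  refine ⟨1 / (12 * K), κ / (4 * K), by positivity, ?_, by positivity, ?_⟩
  · rw [div_le_one (by positivity)]; linarith
  intro μ _ f hf hf1 G hG hG0 δ ρ η hδ hδ0 hρ hρ1 hη
  have hKpos : 0 < K := by linarith
  have hδK : 2 * K * δ ≤ 1 / 6 := by
    rw [le_div_iff₀ (by positivity)] at hδ0
    linarith
  have hδ1 : δ ≤ 1 := by nlinarith
  set φ : EuclideanSpace ℂ (Fin n) → ℝ := fun z => max (1 - ‖f z‖ ^ 2) 0 with hφd
  have hφc : Continuous φ := by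
    have := hf.continuous
    fun_prop
  have hφ0 : ∀ z, 0 ≤ φ z := fun z => le_max_right _ _
  have hφ1 : ∀ z, φ z ≤ 1 := fun z => max_le (by nlinarith [norm_nonneg (f z)]) zero_le_one
  have hφS : ∀ z, ‖z‖ = 1 → φ z = 1 - ‖f z‖ ^ 2 := by
    intro z hz
    apply max_eq_left
    have := hf1 z hz
    nlinarith [norm_nonneg (f z)]
  have hφpos : ∀ z, ‖z‖ = 1 → 0 < φ z := by
    intro z hz
    rw [hφS z hz]
    have := hf1 z hz
    nlinarith [norm_nonneg (f z)]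
  have ev1 := coef φ hφc hφ0 hφ1 hφpos K hK
  have ev2 : ∀ᶠ M : ℕ in atTop, K * Real.exp (-((M:ℝ) ^ 2 * (1 - ρ ^ 2)) / 2) ≤ η := by
    have ht : Tendsto (fun M : ℕ => K * Real.exp (-((M:ℝ) ^ 2 * (1 - ρ ^ 2)) / 2)) atTop (𝓝 (K * 0)) := by
      apply Tendsto.const_mul
      apply Real.tendsto_exp_atBot.comp
      have h3 : Tendsto (fun M : ℕ => (M:ℝ) ^ 2) atTop atTop :=
        (tendsto_pow_atTop (two_ne_zero)).comp tendsto_natCast_atTop_atTop
      have h4 : Tendsto (fun M : ℕ => (-((1 - ρ ^ 2) / 2)) * (M:ℝ) ^ 2) atTop atBot :=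
        h3.const_mul_atTop_of_neg (by nlinarith)
      refine h4.congr (fun M => by ring)
    rw [mul_zero] at ht
    exact ht.eventually_le_const hη
  obtain ⟨M, hM1, hM2, hM3⟩ := (ev1.and (ev2.and (eventually_ge_atTop 1))).exists
  have hM0 : 0 < M := hM3
  -- norms of the vector on the sphere
  have hnv : ∀ z : EuclideanSpace ℂ (Fin n), ∀ m : box n M,
      ‖((δ * φ (pt M m.1) : ℝ) : ℂ) * ee M (pt M m.1) z‖ =
        δ * (φ (pt M m.1) * Real.exp (-((M:ℝ) ^ 2 * ‖z - pt M m.1‖ ^ 2) / 2 -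
          (M:ℝ) ^ 2 * (1 - ‖z‖ ^ 2) / 2)) := by
    intro z m
    rw [norm_mul, norm_ee, Complex.norm_real, Real.norm_eq_abs, abs_of_nonneg
      (mul_nonneg hδ.le (hφ0 _))]
    ring
  have hnvS : ∀ z : EuclideanSpace ℂ (Fin n), ‖z‖ = 1 → ∀ m : box n M,
      ‖((δ * φ (pt M m.1) : ℝ) : ℂ) * ee M (pt M m.1) z‖ =
        δ * (φ (pt M m.1) * Real.exp (-((M:ℝ) ^ 2 * ‖z - pt M m.1‖ ^ 2) / 2)) := by
    intro z hz m
    rw [hnv z m, hz]
    congr 3
    ring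
  have hsum1 : ∀ z : EuclideanSpace ℂ (Fin n), ‖z‖ = 1 →
      ∑ m : box n M, ‖((δ * φ (pt M m.1) : ℝ) : ℂ) * ee M (pt M m.1) z‖ ≤ (2 * K * δ) * φ z := by
    intro z hz
    rw [Finset.sum_congr rfl (fun m _ => hnvS z hz m), ← Finset.mul_sum]
    have := (hM1 z hz).1
    rw [← Finset.sum_coe_sort (box n M)] at this
    calc _ ≤ δ * (2 * K * φ z) := mul_le_mul_of_nonneg_left this hδ.le
      _ = _ := by ring
  have hsum2 : ∀ z : EuclideanSpace ℂ (Fin n), ‖z‖ = 1 →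
      δ ^ 2 * (κ * φ z ^ 2) ≤ ∑ m : box n M, ‖((δ * φ (pt M m.1) : ℝ) : ℂ) * ee M (pt M m.1) z‖ ^ 2 := by
    intro z hz
    rw [Finset.sum_congr rfl (fun m _ => by rw [hnvS z hz m, mul_pow]), ← Finset.mul_sum]
    have := (hM1 z hz).2
    rw [← Finset.sum_coe_sort (box n M)] at this
    exact mul_le_mul_of_nonneg_left this (sq_nonneg _)
  set C : ℝ := (Fintype.card (box n M → Bool) : ℝ) with hC
  have hCpos : 0 < C := by
    rw [hC]; exact_mod_cast Fintype.card_pos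
  have hpos' : ∀ ω : box n M → Bool, ∀ z : EuclideanSpace ℂ (Fin n), ‖z‖ = 1 →
      ‖f z + pert δ φ M ω z‖ < 1 := by
    intro ω z hz
    have h1 : ‖pert δ φ M ω z‖ ≤ (2 * K * δ) * φ z := (norm_ss_le _ _).trans (hsum1 z hz)
    have h2 : (2 * K * δ) * φ z ≤ 1 / 6 * φ z := mul_le_mul_of_nonneg_right hδK (hφ0 z)
    have h3 := hφS z hz
    have h4 := hf1 z hz
    refine (norm_add_le _ _).trans_lt ?_
    nlinarith [norm_nonneg (f z)]
  have P1 : ∀ z : EuclideanSpace ℂ (Fin n), ‖z‖ = 1 →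
      ∑ ω : box n M → Bool, 1 / (1 - ‖f z + pert δ φ M ω z‖ ^ 2) ≤
        C * ((1 + 19 * (2 * K * δ) ^ 2) * (1 / (1 - ‖f z‖ ^ 2))) := by
    intro z hz
    have := pot1 (f z) (fun m : box n M => ((δ * φ (pt M m.1) : ℝ) : ℂ) * ee M (pt M m.1) z)
      (φ z) (2 * K * δ) (hφpos z hz) (hφS z hz) (by positivity) hδK (hsum1 z hz)
    rw [hφS z hz] at this
    exact this
  have P2 : ∀ z : EuclideanSpace ℂ (Fin n), ‖z‖ = 1 →
      ∑ ω : box n M → Bool, Real.exp (-‖pert δ φ M ω z‖) ≤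
        C * (1 - κ / (4 * K) * δ * (1 - ‖f z‖ ^ 2)) := by
    intro z hz
    have hφz := hφpos z hz
    have := pot2 (fun m : box n M => ((δ * φ (pt M m.1) : ℝ) : ℂ) * ee M (pt M m.1) z)
      ((2 * K * δ) * φ z) (δ ^ 2 * (κ * φ z ^ 2)) (by positivity)
      (by nlinarith [hφ1 z]) (hsum1 z hz) (hsum2 z hz)
    refine this.trans (le_of_eq ?_)
    rw [hφS z hz] at hφz ⊢
    have hne : (1 - ‖f z‖ ^ 2) ≠ 0 := hφz.ne'
    congr 2
    field_simp
    ring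
  -- integrability
  have hint : ∀ g : Metric.sphere (0 : EuclideanSpace ℂ (Fin n)) 1 → ℝ, Continuous g → Integrable g μ :=
    fun g hg => hg.integrable_of_hasCompactSupport (HasCompactSupport.of_compactSpace g)
  have hzS : ∀ z : Metric.sphere (0 : EuclideanSpace ℂ (Fin n)) 1, ‖z.1‖ = 1 := by
    intro z; simpa using z.2
  have hcf : Continuous (fun z : Metric.sphere (0 : EuclideanSpace ℂ (Fin n)) 1 => f z.1) :=
    hf.continuous.comp continuous_subtype_val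
  have hcP : ∀ ω : box n M → Bool, Continuous
      (fun z : Metric.sphere (0 : EuclideanSpace ℂ (Fin n)) 1 => pert δ φ M ω z.1) :=
    fun ω => (differentiable_pert δ φ M ω).continuous.comp continuous_subtype_val
  have hc1 : ∀ ω : box n M → Bool, Continuous
      (fun z : Metric.sphere (0 : EuclideanSpace ℂ (Fin n)) 1 => 1 / (1 - ‖f z.1 + pert δ φ M ω z.1‖ ^ 2)) := by
    intro ω
    apply Continuous.div continuous_const
    · exact continuous_const.sub ((hcf.add (hcP ω)).norm.pow 2)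
    · intro z
      have := hpos' ω z.1 (hzS z)
      have h0 := norm_nonneg (f z.1 + pert δ φ M ω z.1)
      nlinarith
  have hc2 : ∀ ω : box n M → Bool, Continuous
      (fun z : Metric.sphere (0 : EuclideanSpace ℂ (Fin n)) 1 => G z * Real.exp (-‖pert δ φ M ω z.1‖)) := by
    intro ω
    exact hG.mul (Real.continuous_exp.comp (hcP ω).norm.neg)
  have hc3 : Continuous (fun z : Metric.sphere (0 : EuclideanSpace ℂ (Fin n)) 1 => 1 / (1 - ‖f z.1‖ ^ 2)) := by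
    apply Continuous.div continuous_const
    · exact continuous_const.sub (hcf.norm.pow 2)
    · intro z
      have := hf1 z.1 (hzS z)
      have h0 := norm_nonneg (f z.1)
      nlinarith
  have hc4 : Continuous (fun z : Metric.sphere (0 : EuclideanSpace ℂ (Fin n)) 1 =>
      G z * (1 - κ / (4 * K) * δ * (1 - ‖f z.1‖ ^ 2))) := by
    exact hG.mul (continuous_const.sub (continuous_const.mul (continuous_const.sub (hcf.norm.pow 2))))
  -- average
  have hav : ∑ ω : box n M → Bool, ((∫ z, 1 / (1 - ‖f z.1 + pert δ φ M ω z.1‖ ^ 2) ∂μ) +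
      (∫ z, G z * Real.exp (-‖pert δ φ M ω z.1‖) ∂μ)) ≤
      ∑ _ω : box n M → Bool, ((1 + 19 * (2 * K * δ) ^ 2) * (∫ z, 1 / (1 - ‖f z.1‖ ^ 2) ∂μ) +
          (∫ z, G z * (1 - κ / (4 * K) * δ * (1 - ‖f z.1‖ ^ 2)) ∂μ)) := by
    rw [Finset.sum_add_distrib, ← integral_finset_sum _ (fun ω _ => hint _ (hc1 ω)),
      ← integral_finset_sum _ (fun ω _ => hint _ (hc2 ω)), Finset.sum_const, Finset.card_univ,
      nsmul_eq_mul, mul_add, ← integral_const_mul, ← integral_const_mul, ← integral_const_mul]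
    apply add_le_add
    · apply integral_mono (integrable_finset_sum _ (fun ω _ => hint _ (hc1 ω)))
        ((hint _ hc3).const_mul _ |>.const_mul _)
      intro z
      exact P1 z.1 (hzS z)
    · apply integral_mono (integrable_finset_sum _ (fun ω _ => hint _ (hc2 ω)))
        ((hint _ hc4).const_mul _)
      intro z
      show ∑ ω : box n M → Bool, G z * Real.exp (-‖pert δ φ M ω z.1‖) ≤ C * (G z * (1 - κ / (4 * K) * δ * (1 - ‖f z.1‖ ^ 2)))
      rw [← Finset.mul_sum]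
      calc _ ≤ G z * (C * (1 - κ / (4 * K) * δ * (1 - ‖f z.1‖ ^ 2))) :=
            mul_le_mul_of_nonneg_left (P2 z.1 (hzS z)) (hG0 z)
        _ = _ := by ring
  obtain ⟨ω, -, hω⟩ := Finset.exists_le_of_sum_le (Finset.univ_nonempty) hav
  refine ⟨pert δ φ M ω, differentiable_pert δ φ M ω, hpos' ω, ?_, ?_⟩
  · intro z hz
    have h1 : ‖pert δ φ M ω z‖ ≤ ∑ m : box n M, ‖((δ * φ (pt M m.1) : ℝ) : ℂ) * ee M (pt M m.1) z‖ :=
      norm_ss_le _ _
    refine h1.trans (le_trans ?_ hM2)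
    rw [Finset.sum_congr rfl (fun m _ => hnv z m)]
    have h2 : ∀ m ∈ (Finset.univ : Finset (box n M)),
        δ * (φ (pt M m.1) * Real.exp (-((M:ℝ) ^ 2 * ‖z - pt M m.1‖ ^ 2) / 2 -
          (M:ℝ) ^ 2 * (1 - ‖z‖ ^ 2) / 2)) ≤
        Real.exp (-((M:ℝ) ^ 2 * ‖z - pt M m.1‖ ^ 2) / 4) * Real.exp (-((M:ℝ) ^ 2 * (1 - ρ ^ 2)) / 2) := by
      intro m _
      have hz2 : ‖z‖ ^ 2 ≤ ρ ^ 2 := pow_le_pow_left₀ (norm_nonneg z) hz 2
      have hx : 0 ≤ (M:ℝ) ^ 2 * ‖z - pt M m.1‖ ^ 2 := by positivity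
      have hy : (M:ℝ) ^ 2 * (1 - ρ ^ 2) ≤ (M:ℝ) ^ 2 * (1 - ‖z‖ ^ 2) := by
        apply mul_le_mul_of_nonneg_left _ (by positivity); linarith
      rw [← Real.exp_add]
      calc δ * (φ (pt M m.1) * Real.exp (-((M:ℝ) ^ 2 * ‖z - pt M m.1‖ ^ 2) / 2 -
          (M:ℝ) ^ 2 * (1 - ‖z‖ ^ 2) / 2))
          ≤ 1 * (1 * Real.exp (-((M:ℝ) ^ 2 * ‖z - pt M m.1‖ ^ 2) / 2 -
          (M:ℝ) ^ 2 * (1 - ‖z‖ ^ 2) / 2)) := by
            apply mul_le_mul hδ1 _ (mul_nonneg (hφ0 _) (Real.exp_pos _).le) zero_le_one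
            exact mul_le_mul_of_nonneg_right (hφ1 _) (Real.exp_pos _).le
        _ ≤ _ := by
            rw [one_mul, one_mul]
            apply Real.exp_le_exp.mpr
            linarith
    refine (Finset.sum_le_sum h2).trans ?_
    rw [← Finset.sum_mul]
    apply mul_le_mul_of_nonneg_right _ (Real.exp_pos _).le
    have := hK M hM0 z
    rwa [← Finset.sum_coe_sort (box n M)] at this
  · refine hω.trans ?_
    apply add_le_add _ le_rfl
    apply mul_le_mul_of_nonneg_right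
    · have : 19 * (2 * K * δ) ^ 2 ≤ (δ / (1 / (12 * K))) ^ 2 := by
        have e : (δ / (1 / (12 * K))) ^ 2 = 144 * (K * δ) ^ 2 := by field_simp; ring
        rw [e]; nlinarith [sq_nonneg (K * δ)]
      linarith
    · apply integral_nonneg
      intro z
      have := hf1 z.1 (hzS z)
      have h0 := norm_nonneg (f z.1)
      have : 0 < 1 - ‖f z.1‖ ^ 2 := by nlinarith
      show 0 ≤ 1 / (1 - ‖f z.1‖ ^ 2)
      positivity

end Pool.Agent.Helper704.RadBall
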