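import Mathlib
import Pool.Agent.Helper704.RB.C

open Finset MeasureTheory Filter Topology

namespace Pool.Agent.Helper704.RadBall

variable {n : ℕ}

/-- state of the construction -/
structure St (n : ℕ) where
  f : EuclideanSpace ℂ (Fin n) → ℂ
  hf : Differentiable ℂ f
  hf1 : ∀ z, ‖z‖ = 1 → ‖f z‖ < 1
  S : EuclideanSpace ℂ (Fin n) → ℝ
  hS : Continuous S
  hS0 : ∀ z, 0 ≤ S z
  ρ : ℝ
  hρ : 0 ≤ ρ
  hρ1 : ρ < 1

/-- one step relation -/
def Rel (μ : Measure (Metric.sphere (0 : EuclideanSpace ℂ (Fin n)) 1)) (δ0 c1 : ℝ)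
    (k : ℕ) (s s' : St n) : Prop :=
  (∀ z, s'.S z = s.S z + ‖s'.f z - s.f z‖) ∧ s.ρ ≤ s'.ρ ∧ 1 - (1/2) ^ k ≤ s'.ρ ∧
  (∀ z, ‖z‖ = 1 → ‖s.f ((s'.ρ : ℂ) • z) - s.f z‖ ≤ (1/2) ^ k) ∧
  (∀ z, ‖z‖ ≤ s'.ρ → ‖s'.f z - s.f z‖ ≤ (1/2) ^ k) ∧
  (∫ z, 1 / (1 - ‖s'.f z.1‖ ^ 2) ∂μ) + (∫ z, Real.exp (-s'.S z.1) ∂μ) ≤
          (1 + (1 / ((k:ℝ) + 1)) ^ 2) * (∫ z, 1 / (1 - ‖s.f z.1‖ ^ 2) ∂μ) +
          (∫ z, Real.exp (-s.S z.1) * (1 - c1 * (δ0 / ((k:ℝ) + 1)) * (1 - ‖s.f z.1‖ ^ 2)) ∂μ)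

lemma exists_next (n : ℕ) : ∃ δ0 c1 : ℝ, 0 < δ0 ∧ 0 < c1 ∧
    ∀ (μ : Measure (Metric.sphere (0 : EuclideanSpace ℂ (Fin n)) 1)) [IsFiniteMeasure μ],
      ∀ (k : ℕ) (s : St n), ∃ s' : St n, Rel μ δ0 c1 k s s' := by
  obtain ⟨δ0, c1, hδ0, _, hc1, hstep⟩ := step n
  refine ⟨δ0, c1, hδ0, hc1, fun μ _ k s => ?_⟩
  -- choose the radius
  obtain ⟨τ, hτ, huc⟩ : ∃ τ : ℝ, 0 < τ ∧ ∀ r : ℝ, 1 - τ < r → r ≤ 1 → 0 ≤ r → ∀ z : EuclideanSpace ℂ (Fin n),
      ‖z‖ = 1 → ‖s.f ((r : ℂ) • z) - s.f z‖ ≤ (1/2) ^ k := by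
    have := (isCompact_closedBall (0 : EuclideanSpace ℂ (Fin n)) 1).uniformContinuousOn_of_continuous
      s.hf.continuous.continuousOn
    rw [Metric.uniformContinuousOn_iff] at this
    obtain ⟨τ, hτ, h⟩ := this ((1/2) ^ k) (by positivity)
    refine ⟨τ, hτ, fun r hr hr1 hr0 z hz => ?_⟩
    have h1 : ‖(r : ℂ) • z‖ = r := by
      rw [norm_smul, hz, mul_one, Complex.norm_real, Real.norm_eq_abs, abs_of_nonneg hr0]
    have h2 := h ((r : ℂ) • z) (mem_closedBall_zero_iff.mpr (h1.le.trans hr1)) z (by simp [hz]) (by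
      rw [dist_eq_norm]
      have : (r : ℂ) • z - z = ((r - 1 : ℝ) : ℂ) • z := by
        push_cast; rw [sub_smul, one_smul]
      rw [this, norm_smul, hz, mul_one, Complex.norm_real, Real.norm_eq_abs, abs_sub_comm,
        abs_of_nonneg (by linarith)]
      linarith)
    rw [dist_eq_norm] at h2
    exact h2.le
  set r : ℝ := max (max s.ρ (1 - (1/2) ^ k)) (1 - τ / 2) with hr
  have hr1 : r < 1 := by
    apply max_lt (max_lt s.hρ1 _) (by linarith)
    have : (0:ℝ) < (1/2) ^ k := by positivity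
    linarith
  have hr0 : 0 ≤ r := s.hρ.trans ((le_max_left _ _).trans (le_max_left _ _))
  have hr2 : 1 - τ < r := lt_of_lt_of_le (by linarith) (le_max_right _ _)
  obtain ⟨P, hP, hP1, hP2, hP3⟩ := hstep μ s.f s.hf s.hf1 (fun z => Real.exp (-s.S z.1))
    (Real.continuous_exp.comp (s.hS.comp continuous_subtype_val).neg) (fun z => (Real.exp_pos _).le)
    (δ0 / ((k:ℝ) + 1)) r ((1/2) ^ k) (by positivity)
    (div_le_self hδ0.le (by linarith [(Nat.cast_nonneg k : (0:ℝ) ≤ k)])) hr0 hr1 (by positivity)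
  refine ⟨⟨fun z => s.f z + P z, s.hf.add hP, hP1, fun z => s.S z + ‖P z‖,
    s.hS.add hP.continuous.norm, fun z => add_nonneg (s.hS0 z) (norm_nonneg _), r, hr0, hr1⟩, ?_⟩
  refine ⟨fun z => by simp, (le_max_left _ _).trans (le_max_left _ _),
    (le_max_right _ _).trans (le_max_left _ _), fun z hz => huc r hr2 hr1.le hr0 z hz, ?_, ?_⟩
  · intro z hz
    simpa using hP2 z hz
  · have e1 : δ0 / ((k:ℝ) + 1) / δ0 = 1 / ((k:ℝ) + 1) := by field_simp
    rw [e1] at hP3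
    simp only [neg_add, Real.exp_add]
    exact hP3

/-- dependent choice -/
lemma exists_seq {T : Type*} (R : ℕ → T → T → Prop) (h : ∀ k s, ∃ s', R k s s') (s0 : T) :
    ∃ u : ℕ → T, u 0 = s0 ∧ ∀ k, R k (u k) (u (k+1)) := by
  choose nx hnx using h
  refine ⟨fun k => Nat.rec s0 (fun k s => nx k s) k, rfl, fun k => ?_⟩
  exact hnx k _

lemma init_state (n : ℕ) : ∃ s : St n, s.f = (fun _ => 0) ∧ s.S = (fun _ => 0) :=
  ⟨⟨fun _ => 0, differentiable_const 0, fun _ _ => by simp, fun _ => 0, continuous_const,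
    fun _ => le_rfl, 0, le_rfl, one_pos⟩, rfl, rfl⟩

/-- numerical lemma : the potential argument -/
lemma potential (Φ A H I : ℕ → ℝ) (c : ℝ) (hc : 0 < c) (hΦ : ∀ k, Φ k = A k + H k)
    (hA : ∀ k, 0 ≤ A k) (hH : ∀ k, 0 ≤ H k) (hI : ∀ k, 0 ≤ I k)
    (hstep : ∀ k : ℕ, Φ (k+1) ≤ (1 + (1 / ((k:ℝ) + 1)) ^ 2) * A k + (H k - c / ((k:ℝ) + 1) * I k))
    (hCS : ∀ k, ∀ l : ℝ, 0 < l → H k ≤ l / 2 * I k + 1 / (2 * l) * A k)
    (a : ℝ) (ha : 0 < a) : ∃ k, H k < a := by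
  by_contra hcon
  push Not at hcon
  have hsum : Summable (fun k : ℕ => (1 / ((k:ℝ) + 1)) ^ 2) := by
    have := (Real.summable_one_div_nat_pow (p := 2)).mpr (by norm_num)
    have h2 := (summable_nat_add_iff 1).mpr this
    refine h2.congr (fun k => ?_)
    push_cast; rw [div_pow, one_pow]
  set T : ℝ := ∑' k : ℕ, (1 / ((k:ℝ) + 1)) ^ 2 with hT
  have hpart : ∀ m : ℕ, ∑ k ∈ range m, (1 / ((k:ℝ) + 1)) ^ 2 ≤ T := fun m =>
    hsum.sum_le_tsum _ (fun _ _ => sq_nonneg _)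
  have hΦ0 : ∀ k, 0 ≤ Φ k := fun k => by rw [hΦ]; exact add_nonneg (hA k) (hH k)
  have hb : ∀ k : ℕ, Φ k ≤ Φ 0 * Real.exp (∑ j ∈ range k, (1 / ((j:ℝ) + 1)) ^ 2) := by
    intro k
    induction k with
    | zero => simp
    | succ k ih =>
      have h1 : Φ (k+1) ≤ (1 + (1 / ((k:ℝ) + 1)) ^ 2) * Φ k := by
        have h2 := hstep k
        have h3 : 0 ≤ c / ((k:ℝ) + 1) * I k := mul_nonneg (by positivity) (hI k)
        have h4 : 0 ≤ (1 / ((k:ℝ) + 1)) ^ 2 * H k := mul_nonneg (by positivity) (hH k)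
        rw [hΦ k]
        nlinarith
      have h2 : (1 + (1 / ((k:ℝ) + 1)) ^ 2) ≤ Real.exp ((1 / ((k:ℝ) + 1)) ^ 2) := by
        have := Real.add_one_le_exp ((1 / ((k:ℝ) + 1)) ^ 2)
        linarith
      rw [Finset.sum_range_succ, Real.exp_add]
      calc Φ (k+1) ≤ (1 + (1 / ((k:ℝ) + 1)) ^ 2) * Φ k := h1
        _ ≤ Real.exp ((1 / ((k:ℝ) + 1)) ^ 2) * (Φ 0 * Real.exp (∑ j ∈ range k, (1 / ((j:ℝ) + 1)) ^ 2)) :=
          mul_le_mul h2 ih (hΦ0 k) (Real.exp_pos _).le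
        _ = _ := by ring
  set B : ℝ := Φ 0 * Real.exp T + 1 with hB
  have hB0 : 0 < B := by
    have := mul_nonneg (hΦ0 0) (Real.exp_pos T).le
    linarith
  have hΦB : ∀ k, Φ k ≤ B := by
    intro k
    refine (hb k).trans ?_
    have : Φ 0 * Real.exp (∑ j ∈ range k, (1 / ((j:ℝ) + 1)) ^ 2) ≤ Φ 0 * Real.exp T :=
      mul_le_mul_of_nonneg_left (Real.exp_le_exp.mpr (hpart k)) (hΦ0 0)
    linarith
  have hAB : ∀ k, A k ≤ B := fun k => by
    have := hΦB k; rw [hΦ] at this; linarith [hH k]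
  have hIlow : ∀ k, a ^ 2 / B ≤ I k := by
    intro k
    have h1 := hCS k (B / a) (by positivity)
    have h2 : 1 / (2 * (B / a)) * A k ≤ a / 2 := by
      have : 1 / (2 * (B / a)) * A k ≤ 1 / (2 * (B / a)) * B :=
        mul_le_mul_of_nonneg_left (hAB k) (by positivity)
      refine this.trans (le_of_eq ?_)
      field_simp
    have h3 : a / 2 ≤ B / a / 2 * I k := by linarith [hcon k]
    rw [div_le_iff₀ hB0]
    have h4 : a / 2 * (2 * a) ≤ (B / a / 2 * I k) * (2 * a) := mul_le_mul_of_nonneg_right h3 (by positivity)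
    have h5 : (B / a / 2 * I k) * (2 * a) = I k * B := by field_simp
    rw [h5] at h4
    linarith
  have hdec : ∀ m : ℕ, Φ m ≤ Φ 0 + B * (∑ k ∈ range m, (1 / ((k:ℝ) + 1)) ^ 2) -
      c * (a ^ 2 / B) * ∑ k ∈ range m, 1 / ((k:ℝ) + 1) := by
    intro m
    induction m with
    | zero => simp
    | succ m ih =>
      have h1 := hstep m
      have h2 : c / ((m:ℝ) + 1) * (a ^ 2 / B) ≤ c / ((m:ℝ) + 1) * I m :=
        mul_le_mul_of_nonneg_left (hIlow m) (by positivity)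
      have h3 : (1 / ((m:ℝ) + 1)) ^ 2 * A m ≤ (1 / ((m:ℝ) + 1)) ^ 2 * B :=
        mul_le_mul_of_nonneg_left (hAB m) (by positivity)
      have h4 := hΦ m
      rw [Finset.sum_range_succ, Finset.sum_range_succ]
      have h5 : c * (a ^ 2 / B) * (∑ k ∈ range m, 1 / ((k:ℝ) + 1) + 1 / ((m:ℝ) + 1)) =
        c * (a ^ 2 / B) * (∑ k ∈ range m, 1 / ((k:ℝ) + 1)) + c / ((m:ℝ) + 1) * (a ^ 2 / B) := by
        field_simp
      rw [h5]
      nlinarith
  have hdiv := Real.tendsto_sum_range_one_div_nat_succ_atTop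
  have hpos : 0 < c * (a ^ 2 / B) := by positivity
  have h1 := (hdiv.const_mul_atTop hpos).eventually_gt_atTop (Φ 0 + B * T)
  obtain ⟨m, hm⟩ := h1.exists
  have h2 := hdec m
  have h3 : B * (∑ k ∈ range m, (1 / ((k:ℝ) + 1)) ^ 2) ≤ B * T :=
    mul_le_mul_of_nonneg_left (hpart m) hB0.le
  have h4 := hΦ0 m
  linarith

/-- almost everywhere divergence -/
lemma ae_div {δ0 c1 : ℝ} (hδ0 : 0 < δ0) (hc1 : 0 < c1)
    (μ : Measure (Metric.sphere (0 : EuclideanSpace ℂ (Fin n)) 1)) [IsFiniteMeasure μ]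
    (u : ℕ → St n) (hu : ∀ k, Rel μ δ0 c1 k (u k) (u (k+1))) :
    ∀ᵐ z ∂μ, ∀ C : ℕ, ∃ k, (C:ℝ) < (u k).S z.1 := by
  have hint : ∀ g : Metric.sphere (0 : EuclideanSpace ℂ (Fin n)) 1 → ℝ, Continuous g → Integrable g μ :=
    fun g hg => hg.integrable_of_hasCompactSupport (HasCompactSupport.of_compactSpace g)
  have hzS : ∀ z : Metric.sphere (0 : EuclideanSpace ℂ (Fin n)) 1, ‖z.1‖ = 1 := by
    intro z; simp
  have hq : ∀ k, ∀ z : Metric.sphere (0 : EuclideanSpace ℂ (Fin n)) 1, 0 < 1 - ‖(u k).f z.1‖ ^ 2 := by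
    intro k z
    have := (u k).hf1 z.1 (hzS z)
    have h0 := norm_nonneg ((u k).f z.1)
    nlinarith
  have hcf : ∀ k, Continuous (fun z : Metric.sphere (0 : EuclideanSpace ℂ (Fin n)) 1 => (u k).f z.1) :=
    fun k => (u k).hf.continuous.comp continuous_subtype_val
  have hcG : ∀ k, Continuous (fun z : Metric.sphere (0 : EuclideanSpace ℂ (Fin n)) 1 =>
      Real.exp (-(u k).S z.1)) :=
    fun k => Real.continuous_exp.comp ((u k).hS.comp continuous_subtype_val).neg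
  have hcq : ∀ k, Continuous (fun z : Metric.sphere (0 : EuclideanSpace ℂ (Fin n)) 1 =>
      1 - ‖(u k).f z.1‖ ^ 2) := fun k => continuous_const.sub ((hcf k).norm.pow 2)
  have hcr : ∀ k, Continuous (fun z : Metric.sphere (0 : EuclideanSpace ℂ (Fin n)) 1 =>
      1 / (1 - ‖(u k).f z.1‖ ^ 2)) := fun k => continuous_const.div (hcq k) (fun z => (hq k z).ne')
  have hcGq : ∀ k, Continuous (fun z : Metric.sphere (0 : EuclideanSpace ℂ (Fin n)) 1 =>
      Real.exp (-(u k).S z.1) * (1 - ‖(u k).f z.1‖ ^ 2)) := fun k => (hcG k).mul (hcq k)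
  have hH : ∀ a : ℝ, 0 < a → ∃ k, (∫ z, Real.exp (-(u k).S z.1) ∂μ) < a := by
    intro a ha
    apply potential (fun k => (∫ z, 1 / (1 - ‖(u k).f z.1‖ ^ 2) ∂μ) + (∫ z, Real.exp (-(u k).S z.1) ∂μ))
      (fun k => ∫ z, 1 / (1 - ‖(u k).f z.1‖ ^ 2) ∂μ) (fun k => ∫ z, Real.exp (-(u k).S z.1) ∂μ)
      (fun k => ∫ z, Real.exp (-(u k).S z.1) * (1 - ‖(u k).f z.1‖ ^ 2) ∂μ)
      (c1 * δ0) (by positivity) (fun k => rfl)
    · intro k
      exact integral_nonneg (fun z => by have := hq k z; positivity)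
    · intro k
      exact integral_nonneg (fun z => (Real.exp_pos _).le)
    · intro k
      exact integral_nonneg (fun z => mul_nonneg (Real.exp_pos _).le (hq k z).le)
    · intro k
      refine (hu k).2.2.2.2.2.trans (le_of_eq ?_)
      congr 1
      rw [← integral_const_mul, ← integral_sub (hint _ (hcG k)) ((hint _ (hcGq k)).const_mul _)]
      congr 1
      ext z
      ring
    · intro k l hl
      rw [← integral_const_mul, ← integral_const_mul,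
        ← integral_add ((hint _ (hcGq k)).const_mul _) ((hint _ (hcr k)).const_mul _)]
      apply integral_mono (hint _ (hcG k))
        (((hint _ (hcGq k)).const_mul _).add ((hint _ (hcr k)).const_mul _))
      intro z
      show Real.exp (-(u k).S z.1) ≤ l / 2 * (Real.exp (-(u k).S z.1) * (1 - ‖(u k).f z.1‖ ^ 2)) +
        1 / (2 * l) * (1 / (1 - ‖(u k).f z.1‖ ^ 2))
      set G := Real.exp (-(u k).S z.1) with hG
      set q := 1 - ‖(u k).f z.1‖ ^ 2 with hqd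
      have hq0 : 0 < q := hq k z
      have hG0 : 0 < G := Real.exp_pos _
      have hG1 : G ≤ 1 := by
        rw [hG, Real.exp_le_one_iff]; linarith [(u k).hS0 z.1]
      have h1 : 1 / (2 * l) * (G / q) ≤ 1 / (2 * l) * (1 / q) := by gcongr
      have h2 : G ≤ l / 2 * (G * q) + 1 / (2 * l) * (G / q) := by
        have h3 : l / 2 * (G * q) + 1 / (2 * l) * (G / q) - G = G * (l * q - 1) ^ 2 / (2 * l * q) := by
          field_simp; ring
        have h4 : 0 ≤ G * (l * q - 1) ^ 2 / (2 * l * q) := by positivity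
        linarith
      linarith
    · exact ha
  rw [ae_all_iff]
  intro C
  rw [ae_iff]
  have hset : ∀ k, {z : Metric.sphere (0 : EuclideanSpace ℂ (Fin n)) 1 | ¬ ∃ k, (C:ℝ) < (u k).S z.1} ⊆
      {z | Real.exp (-(C:ℝ)) ≤ Real.exp (-(u k).S z.1)} := by
    intro k z hz
    simp only [Set.mem_ofPred_eq, not_exists, not_lt] at hz ⊢
    exact Real.exp_le_exp.mpr (by linarith [hz k])
  have hle : ∀ k, Real.exp (-(C:ℝ)) *
      μ.real {z | Real.exp (-(C:ℝ)) ≤ Real.exp (-(u k).S z.1)} ≤ ∫ z, Real.exp (-(u k).S z.1) ∂μ := by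
    intro k
    exact mul_meas_ge_le_integral_of_nonneg (Eventually.of_forall (fun z => (Real.exp_pos _).le))
      (hint _ (hcG k)) _
  have hzero : μ.real {z : Metric.sphere (0 : EuclideanSpace ℂ (Fin n)) 1 | ¬ ∃ k, (C:ℝ) < (u k).S z.1} = 0 := by
    apply le_antisymm _ measureReal_nonneg
    apply le_of_forall_pos_le_add
    intro ε hε
    obtain ⟨k, hk⟩ := hH (Real.exp (-(C:ℝ)) * ε) (by positivity)
    have h1 : μ.real {z : Metric.sphere (0 : EuclideanSpace ℂ (Fin n)) 1 | ¬ ∃ k, (C:ℝ) < (u k).S z.1} ≤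
        μ.real {z | Real.exp (-(C:ℝ)) ≤ Real.exp (-(u k).S z.1)} := measureReal_mono (hset k)
    have h2 := hle k
    have h3 : Real.exp (-(C:ℝ)) * μ.real {z | Real.exp (-(C:ℝ)) ≤ Real.exp (-(u k).S z.1)} <
        Real.exp (-(C:ℝ)) * ε := lt_of_le_of_lt h2 hk
    have h4 := lt_of_mul_lt_mul_left h3 (Real.exp_pos _).le
    linarith
  rwa [measureReal_eq_zero_iff] at hzero

end Pool.Agent.Helper704.RadBall
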